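import Pool.Agent.W516.MTH.Sv
import Pool.Agent.W883.MTG.CLA

/-!
# Mixed Tate motives with Clausen values and logarithms among their periods
-/

set_option autoImplicit false
set_option linter.unusedSectionVars false

namespace Pool.Agent.W516.MTD

open Matrix Pool.Agent.W516.MTZ Pool.Agent.W516.MTH

variable {m X : Type} [Fintype m] [DecidableEq m] [Fintype X] [DecidableEq X]

theorem hind_of {M : Motive m X} {p : (Matrix m m ℂ)ˣ} (σ : ℂ ≃+* ℂ)
    (hinj : Function.Injective M.deg) (hl0 : (p : Matrix m m ℂ) M.t M.t ≠ 0)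
    (hz : ∀ x, σ ((p : Matrix m m ℂ) M.o (M.s x)) -
      (σ ((p : Matrix m m ℂ) M.t M.t) / (p : Matrix m m ℂ) M.t M.t) ^ M.deg x *
        (p : Matrix m m ℂ) M.o (M.s x) ≠ 0) : HIndependent M (p : Matrix m m ℂ) := by
  intro n c b hc h
  by_contra hne
  obtain ⟨x, hx⟩ := Function.ne_iff.1 hne
  have hxn := hc x hx
  have hsum : ∑ y, (c y : ℂ) * (p : Matrix m m ℂ) M.o (M.s y) =
      (c x : ℂ) * (p : Matrix m m ℂ) M.o (M.s x) := by
    refine Finset.sum_eq_single x (fun y _ hy => ?_) (fun h => absurd (Finset.mem_univ _) h)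
    have h1 : c y = 0 := by
      by_contra h1
      exact hy (hinj ((hc y h1).trans hxn.symm))
    rw [h1, Rat.cast_zero, zero_mul]
  rw [hsum] at h
  have h1 := congrArg σ h
  rw [map_mul, map_mul, map_pow, map_ratCast, map_ratCast] at h1
  apply hz x
  have hcx : (c x : ℂ) ≠ 0 := by exact_mod_cast hx
  apply mul_left_cancel₀ hcx
  rw [hxn, mul_zero]
  have h2 : (σ ((p : Matrix m m ℂ) M.t M.t) / (p : Matrix m m ℂ) M.t M.t) ^ n *
      (p : Matrix m m ℂ) M.t M.t ^ n = σ ((p : Matrix m m ℂ) M.t M.t) ^ n := by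
    rw [div_pow, div_mul_cancel₀ _ (pow_ne_zero n hl0)]
  linear_combination h1 - (σ ((p : Matrix m m ℂ) M.t M.t) / (p : Matrix m m ℂ) M.t M.t) ^ n * h -
    (b : ℂ) * h2

theorem main_sv_gen {M : Motive m X} {p : (Matrix m m ℂ)ˣ} (hp : p ∈ M.gp)
    (hinj : Function.Injective M.deg)
    (hz : ∀ x, cj ((p : Matrix m m ℂ) M.o (M.s x)) -
      (cj ((p : Matrix m m ℂ) M.t M.t) / (p : Matrix m m ℂ) M.t M.t) ^ M.deg x *
        (p : Matrix m m ℂ) M.o (M.s x) ≠ 0) :
    (DimensionConjecture M (p : Matrix m m ℂ) ↔ ∀ A B : Matrix m m ℂ,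
      Satisfies M (p : Matrix m m ℂ) (p * A) → Satisfies M (p : Matrix m m ℂ) (p * B) →
        Satisfies M (p : Matrix m m ℂ) (p * (A * B))) ∧
    (DimensionConjecture M (p : Matrix m m ℂ) ↔ ∀ B : Matrix m m ℂ,
      Satisfies M (p : Matrix m m ℂ) B → Satisfies M (p : Matrix m m ℂ)
        (B * ((p⁻¹ : (Matrix m m ℂ)ˣ) * (p : Matrix m m ℂ).map (starRingEnd ℂ)))) := by
  have hs_val : ((p⁻¹ * sg cj p : (Matrix m m ℂ)ˣ) : Matrix m m ℂ) =
      ((p⁻¹ : (Matrix m m ℂ)ˣ) : Matrix m m ℂ) * (p : Matrix m m ℂ).map (starRingEnd ℂ) := by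
    rw [Units.val_mul]
    rfl
  have hind := hind_of cj hinj (tt_ne hp) hz
  have hA := (main_h Pool.Agent.W715.MTH.T_ALG Pool.Agent.W768.MTH.T_DIM
    Pool.Agent.W351.MTH.T_SPAN hp hind).2
  refine ⟨hA, fun hdim B hB => ?_, fun h => ?_⟩
  · have hmul := hA.1 hdim
    have h1 : B = (p : Matrix m m ℂ) * (((p⁻¹ : (Matrix m m ℂ)ˣ) : Matrix m m ℂ) * B) := by
      rw [← mul_assoc, Units.mul_inv, one_mul]
    have h2 := hmul (((p⁻¹ : (Matrix m m ℂ)ˣ) : Matrix m m ℂ) * B)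
      (((p⁻¹ : (Matrix m m ℂ)ˣ) : Matrix m m ℂ) * (p : Matrix m m ℂ).map (starRingEnd ℂ))
      (by rwa [← h1])
      (by
        rw [← mul_assoc, Units.mul_inv, one_mul]
        have h3 := (dim_iff Pool.Agent.W768.MTH.T_DIM hp).1 hdim _ (sg_mem M cj hp)
        exact h3)
    rwa [← mul_assoc, ← h1] at h2
  · rw [dim_iff Pool.Agent.W768.MTH.T_DIM hp]
    have hH : Stab M (Sat M (p : Matrix m m ℂ)) ≤ M.gp := fun g hg => hg.1
    have hs : p⁻¹ * sg cj p ∈ Stab M (Sat M (p : Matrix m m ℂ)) := by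
      refine ⟨Subgroup.mul_mem _ (Subgroup.inv_mem _ hp) (sg_mem M cj hp), fun B hB => ?_⟩
      rw [hs_val]
      exact h B hB
    have hle := gp_le_conj hH (dg_mem_Stab M _) hp cj hs hinj hz
    intro g hg
    have h1 := (hle (Subgroup.mul_mem _ (Subgroup.inv_mem _ hp) hg)).2 (p : Matrix m m ℂ)
      (fun n c _ h0 => h0)
    rw [← Units.val_mul, mul_inv_cancel_left] at h1
    exact h1

theorem conj_ne_d {M : Motive m X} {p : (Matrix m m ℂ)ˣ}
    (hpi : (p : Matrix m m ℂ) M.t M.t = 2 * Real.pi * Complex.I)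
    (hlog : ∀ x, M.deg x = 1 → (p : Matrix m m ℂ) M.o (M.s x) = Real.log 2)
    (hodd : ∀ x, Odd (M.deg x) → M.deg x ≠ 1 →
      (p : Matrix m m ℂ) M.o (M.s x) = riemannZeta (M.deg x))
    (heven : ∀ x, Even (M.deg x) → (p : Matrix m m ℂ) M.o (M.s x) =
      Complex.I * ((∑' k : ℕ, Real.sin (k * Real.pi / 3) / (k : ℝ) ^ M.deg x : ℝ) : ℂ)) (x : X) :
    cj ((p : Matrix m m ℂ) M.o (M.s x)) -
      (cj ((p : Matrix m m ℂ) M.t M.t) / (p : Matrix m m ℂ) M.t M.t) ^ M.deg x *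
        (p : Matrix m m ℂ) M.o (M.s x) ≠ 0 := by
  have hpi0 : (p : Matrix m m ℂ) M.t M.t ≠ 0 := by
    rw [hpi]
    simp [Real.pi_ne_zero]
  have h1 : cj ((p : Matrix m m ℂ) M.t M.t) = -(p : Matrix m m ℂ) M.t M.t := by
    rw [hpi, cj_apply, map_mul, map_mul, Complex.conj_I, Complex.conj_ofReal, map_ofNat]
    ring
  rw [h1, neg_div, div_self hpi0]
  rcases Nat.even_or_odd (M.deg x) with he | ho
  · have h2 := Pool.Agent.W883.MTG.T_CLA (M.deg x) (by
      have h3 := M.deg_pos x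
      obtain ⟨k, hk⟩ := he
      omega)
    rw [heven x he, he.neg_one_pow, cj_apply, map_mul, Complex.conj_I, Complex.conj_ofReal]
    intro h3
    have h4 : Complex.I *
        ((∑' k : ℕ, Real.sin (k * Real.pi / 3) / (k : ℝ) ^ M.deg x : ℝ) : ℂ) = 0 := by
      linear_combination -h3 / 2
    rcases mul_eq_zero.1 h4 with h5 | h5
    · exact Complex.I_ne_zero h5
    · rw [Complex.ofReal_eq_zero] at h5
      exact h2.ne' h5
  · rw [ho.neg_one_pow]
    by_cases h2 : M.deg x = 1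
    · rw [hlog x h2, cj_apply, Complex.conj_ofReal]
      intro h3
      have h4 : ((Real.log 2 : ℝ) : ℂ) = 0 := by linear_combination h3 / 2
      rw [Complex.ofReal_eq_zero] at h4
      exact (Real.log_pos one_lt_two).ne' h4
    · have h3 : (1 : ℕ) < M.deg x := by
        have := M.deg_pos x
        omega
      have h4 : riemannZeta (M.deg x) = ((∑' n : ℕ, 1 / (n : ℝ) ^ M.deg x : ℝ) : ℂ) := by
        rw [zeta_nat_eq_tsum_of_gt_one h3]
        push_cast
        rfl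
      have h5 : riemannZeta (M.deg x) ≠ 0 := by
        apply riemannZeta_ne_zero_of_one_le_re
        rw [Complex.natCast_re]
        exact_mod_cast (by omega : 1 ≤ M.deg x)
      have h6 : cj ((p : Matrix m m ℂ) M.o (M.s x)) = (p : Matrix m m ℂ) M.o (M.s x) := by
        rw [hodd x ho h2, cj_apply, h4, Complex.conj_ofReal]
      rw [h6, hodd x ho h2]
      intro h7
      apply h5
      linear_combination h7 / 2

end Pool.Agent.W516.MTD
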